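import Pool.Agent.Helper89.Vol4.Goals

/-!
# Project V47 (MP_cd13d2_co), packet FIN: the ten sign patterns
-/

set_option autoImplicit false

namespace Pool.Agent.Helper94.Vol4.PkFIN

open Pool.Agent.Helper89.Vol4 Pool.Agent.Helper86.Poly

theorem dtE (u v w z : E 4) : dt u v w z =
    u 0 * (v 1 * (w 2 * z 3 - w 3 * z 2) - v 2 * (w 1 * z 3 - w 3 * z 1) +
      v 3 * (w 1 * z 2 - w 2 * z 1)) -
    u 1 * (v 0 * (w 2 * z 3 - w 3 * z 2) - v 2 * (w 0 * z 3 - w 3 * z 0) +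
      v 3 * (w 0 * z 2 - w 2 * z 0)) +
    u 2 * (v 0 * (w 1 * z 3 - w 3 * z 1) - v 1 * (w 0 * z 3 - w 3 * z 0) +
      v 3 * (w 0 * z 1 - w 1 * z 0)) -
    u 3 * (v 0 * (w 1 * z 2 - w 2 * z 1) - v 1 * (w 0 * z 2 - w 2 * z 0) +
      v 2 * (w 0 * z 1 - w 1 * z 0)) := by
  unfold dt
  rw [Matrix.det_succ_row_zero, Fin.sum_univ_four]
  simp [Matrix.det_fin_three, Fin.succAbove, Matrix.submatrix]
  ring

theorem i3 (a b c d e : E 4) : dt a b c e - dt a b c d = dt a b c (e - d) := by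
  simp only [dtE, PiLp.sub_apply]
  ring

theorem i5 (a b c d e : E 4) :
    dt a b d e - dt a b c e + dt a b c d = dt a b (d - c) (e - c) := by
  simp only [dtE, PiLp.sub_apply]
  ring

theorem i6 (a b c d e f : E 4) :
    dt a b d f - dt a b c f - dt a b d e + dt a b c e = dt a b (d - c) (f - e) := by
  simp only [dtE, PiLp.sub_apply]
  ring

theorem i22 (a b c d e f : E 4) :
    dt a (c - b) b d + dt a (c - b) d e + dt a (c - b) e f =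
      dt a c e f + dt a c d e - dt a b e f - dt a b d e - dt a b c d := by
  simp only [dtE, PiLp.sub_apply]
  ring

theorem i212 (a b c d e f : E 4) :
    dt a (d - c) b c + dt a (d - c) c e + dt a (d - c) e f =
      dt a b c d - dt a c d e + dt a d e f - dt a c e f := by
  simp only [dtE, PiLp.sub_apply]
  ring

theorem sumT (y : Fin 7 → E 4) (c : ℝ) (s : Fin 7 → ℝ) : T y c s =
      ((if s 2 = 1 ∧ s 1 = -1 then c * Dt y 2 1 else 0)) +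
      ((if s 3 = 1 ∧ s 1 = -1 then c * Dt y 3 1 else 0) + (if s 3 = 1 ∧ s 2 = -1 then c * Dt y 3 2 else 0)) +
      ((if s 4 = 1 ∧ s 1 = -1 then c * Dt y 4 1 else 0) + (if s 4 = 1 ∧ s 2 = -1 then c * Dt y 4 2 else 0) + (if s 4 = 1 ∧ s 3 = -1 then c * Dt y 4 3 else 0)) +
      ((if s 5 = 1 ∧ s 1 = -1 then c * Dt y 5 1 else 0) + (if s 5 = 1 ∧ s 2 = -1 then c * Dt y 5 2 else 0) + (if s 5 = 1 ∧ s 3 = -1 then c * Dt y 5 3 else 0) + (if s 5 = 1 ∧ s 4 = -1 then c * Dt y 5 4 else 0)) +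
      ((if s 6 = 1 ∧ s 1 = -1 then c * Dt y 6 1 else 0) + (if s 6 = 1 ∧ s 2 = -1 then c * Dt y 6 2 else 0) + (if s 6 = 1 ∧ s 3 = -1 then c * Dt y 6 3 else 0) + (if s 6 = 1 ∧ s 4 = -1 then c * Dt y 6 4 else 0) + (if s 6 = 1 ∧ s 5 = -1 then c * Dt y 6 5 else 0)) := by
    unfold T
    simp only [Fin.sum_univ_seven]
    have f1 : ∀ m n : Fin 7, ¬ (n < m ∧ 1 ≤ n) →
        (if n < m ∧ 1 ≤ n ∧ s m = 1 ∧ s n = -1 then c * Dt y m n else 0) = 0 := fun m n h =>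
      if_neg fun h' => h ⟨h'.1, h'.2.1⟩
    have f2 : ∀ m n : Fin 7, (n < m ∧ 1 ≤ n) →
        (if n < m ∧ 1 ≤ n ∧ s m = 1 ∧ s n = -1 then c * Dt y m n else 0) =
          if s m = 1 ∧ s n = -1 then c * Dt y m n else 0 := fun m n h => by
      simp [h.1, h.2]
    simp only [f1 0 0 (by decide), f1 0 1 (by decide), f1 0 2 (by decide), f1 0 3 (by decide),
      f1 0 4 (by decide), f1 0 5 (by decide), f1 0 6 (by decide), f1 1 0 (by decide),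
      f1 1 1 (by decide), f1 1 2 (by decide), f1 1 3 (by decide), f1 1 4 (by decide),
      f1 1 5 (by decide), f1 1 6 (by decide), f1 2 0 (by decide), f2 2 1 (by decide),
      f1 2 2 (by decide), f1 2 3 (by decide), f1 2 4 (by decide), f1 2 5 (by decide),
      f1 2 6 (by decide), f1 3 0 (by decide), f2 3 1 (by decide), f2 3 2 (by decide),
      f1 3 3 (by decide), f1 3 4 (by decide), f1 3 5 (by decide), f1 3 6 (by decide),
      f1 4 0 (by decide), f2 4 1 (by decide), f2 4 2 (by decide), f2 4 3 (by decide),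
      f1 4 4 (by decide), f1 4 5 (by decide), f1 4 6 (by decide), f1 5 0 (by decide),
      f2 5 1 (by decide), f2 5 2 (by decide), f2 5 3 (by decide), f2 5 4 (by decide),
      f1 5 5 (by decide), f1 5 6 (by decide), f1 6 0 (by decide), f2 6 1 (by decide),
      f2 6 2 (by decide), f2 6 3 (by decide), f2 6 4 (by decide), f2 6 5 (by decide),
      f1 6 6 (by decide)]
    ring

theorem vals (s : Fin 7 → ℝ) (h : s ∈ PL) :
    (s 1 = 1 ∧ s 2 = 1 ∧ s 3 = 1 ∧ s 4 = 1 ∧ s 5 = 1 ∧ s 6 = 1) ∨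
    (s 1 = 1 ∧ s 2 = 1 ∧ s 3 = 1 ∧ s 4 = 1 ∧ s 5 = -1 ∧ s 6 = 1) ∨
    (s 1 = 1 ∧ s 2 = 1 ∧ s 3 = 1 ∧ s 4 = -1 ∧ s 5 = -1 ∧ s 6 = 1) ∨
    (s 1 = 1 ∧ s 2 = 1 ∧ s 3 = 1 ∧ s 4 = -1 ∧ s 5 = 1 ∧ s 6 = 1) ∨
    (s 1 = 1 ∧ s 2 = 1 ∧ s 3 = -1 ∧ s 4 = -1 ∧ s 5 = -1 ∧ s 6 = 1) ∨
    (s 1 = 1 ∧ s 2 = 1 ∧ s 3 = -1 ∧ s 4 = -1 ∧ s 5 = 1 ∧ s 6 = 1) ∨
    (s 1 = 1 ∧ s 2 = 1 ∧ s 3 = -1 ∧ s 4 = 1 ∧ s 5 = -1 ∧ s 6 = 1) ∨
    (s 1 = 1 ∧ s 2 = -1 ∧ s 3 = -1 ∧ s 4 = 1 ∧ s 5 = -1 ∧ s 6 = 1) ∨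
    (s 1 = 1 ∧ s 2 = -1 ∧ s 3 = 1 ∧ s 4 = 1 ∧ s 5 = -1 ∧ s 6 = 1) ∨
    (s 1 = -1 ∧ s 2 = 1 ∧ s 3 = -1 ∧ s 4 = 1 ∧ s 5 = -1 ∧ s 6 = 1) := by
  simp only [PL, List.mem_cons, List.not_mem_nil, or_false] at h
  rcases h with rfl | rfl | rfl | rfl | rfl | rfl | rfl | rfl | rfl | rfl
  · exact Or.inl ⟨rfl, rfl, rfl, rfl, rfl, rfl⟩
  · exact Or.inr (Or.inl ⟨rfl, rfl, rfl, rfl, rfl, rfl⟩)
  · exact Or.inr (Or.inr (Or.inl ⟨rfl, rfl, rfl, rfl, rfl, rfl⟩))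
  · exact Or.inr (Or.inr (Or.inr (Or.inl ⟨rfl, rfl, rfl, rfl, rfl, rfl⟩)))
  · exact Or.inr (Or.inr (Or.inr (Or.inr (Or.inl ⟨rfl, rfl, rfl, rfl, rfl, rfl⟩))))
  · exact Or.inr (Or.inr (Or.inr (Or.inr (Or.inr (Or.inl ⟨rfl, rfl, rfl, rfl, rfl, rfl⟩)))))
  · exact Or.inr (Or.inr (Or.inr (Or.inr (Or.inr (Or.inr (Or.inl ⟨rfl, rfl, rfl, rfl, rfl, rfl⟩))))))
  · exact Or.inr (Or.inr (Or.inr (Or.inr (Or.inr (Or.inr (Or.inr (Or.inl ⟨rfl, rfl, rfl, rfl, rfl, rfl⟩)))))))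
  · exact Or.inr (Or.inr (Or.inr (Or.inr (Or.inr (Or.inr (Or.inr (Or.inr (Or.inl ⟨rfl, rfl, rfl, rfl, rfl, rfl⟩))))))))
  · exact Or.inr (Or.inr (Or.inr (Or.inr (Or.inr (Or.inr (Or.inr (Or.inr (Or.inr (⟨rfl, rfl, rfl, rfl, rfl, rfl⟩)))))))))

theorem thm (h1 : G_D1) (h4 : G_D4) (hH : G_HAD) : G_FIN := by
  intro y hy c s ⟨hc, hs⟩
  obtain ⟨ha, -, -⟩ := h1 y
  obtain ⟨⟨d12, d13, d14, d15, d16⟩, ⟨d23, d24, d25, d26⟩, ⟨d34, d35, d36⟩, ⟨d45, d46⟩, d56⟩ :=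
    h4 y
  have hn : ∀ i j, ‖y i - y j‖ ≤ 1 := fun i j => by
    rw [← dist_eq_norm]
    exact hy i j
  have e21 : Dt y 2 1 = -br (y 0) (y 3) (y 4) (y 5) (y 6) := by rw [ha, d12]
  have e31 : Dt y 3 1 = br (y 0) (y 2) (y 4) (y 5) (y 6) := by rw [ha, d13, neg_neg]
  have e41 : Dt y 4 1 = -br (y 0) (y 2) (y 3) (y 5) (y 6) := by rw [ha, d14]
  have e51 : Dt y 5 1 = br (y 0) (y 2) (y 3) (y 4) (y 6) := by rw [ha, d15, neg_neg]
  have e61 : Dt y 6 1 = -br (y 0) (y 2) (y 3) (y 4) (y 5) := by rw [ha, d16]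
  have e32 : Dt y 3 2 = -br (y 0) (y 1) (y 4) (y 5) (y 6) := by rw [ha, d23]
  have e42 : Dt y 4 2 = br (y 0) (y 1) (y 3) (y 5) (y 6) := by rw [ha, d24, neg_neg]
  have e52 : Dt y 5 2 = -br (y 0) (y 1) (y 3) (y 4) (y 6) := by rw [ha, d25]
  have e62 : Dt y 6 2 = br (y 0) (y 1) (y 3) (y 4) (y 5) := by rw [ha, d26, neg_neg]
  have e43 : Dt y 4 3 = -br (y 0) (y 1) (y 2) (y 5) (y 6) := by rw [ha, d34]
  have e53 : Dt y 5 3 = br (y 0) (y 1) (y 2) (y 4) (y 6) := by rw [ha, d35, neg_neg]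
  have e63 : Dt y 6 3 = -br (y 0) (y 1) (y 2) (y 4) (y 5) := by rw [ha, d36]
  have e54 : Dt y 5 4 = -br (y 0) (y 1) (y 2) (y 3) (y 6) := by rw [ha, d45]
  have e64 : Dt y 6 4 = br (y 0) (y 1) (y 2) (y 3) (y 5) := by rw [ha, d46, neg_neg]
  have e65 : Dt y 6 5 = -br (y 0) (y 1) (y 2) (y 3) (y 4) := by rw [ha, d56]
  unfold br at e21 e31 e41 e51 e61 e32 e42 e52 e62 e43 e53 e63 e54 e64 e65
  have q := abs_le.1 (hH _ _ _ _ (hn 1 0) (hn 2 0) (hn 3 0) (hn 4 0))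
  have q3 := abs_le.1 (hH _ _ _ _ (hn 1 0) (hn 2 0) (hn 3 0) (hn 5 4))
  have q4 := abs_le.1 (hH _ _ _ _ (hn 1 0) (hn 2 0) (hn 3 0) (hn 6 5))
  have q5 := abs_le.1 (hH _ _ _ _ (hn 1 0) (hn 2 0) (hn 4 3) (hn 5 3))
  have q6 := abs_le.1 (hH _ _ _ _ (hn 1 0) (hn 2 0) (hn 4 3) (hn 6 5))
  have s1 : ∀ i j, y i - y j = (y i - y 0) - (y j - y 0) := fun i j => by abel
  rw [s1 5 4, ← i3] at q3
  rw [s1 6 5, ← i3] at q4
  rw [s1 4 3, s1 5 3, ← i5] at q5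
  rw [s1 4 3, s1 6 5, ← i6] at q6
  have r31 := abs_le.1 (le_refl |p31 y|)
  have r22 := abs_le.1 (le_refl |p22 y|)
  have r212 := abs_le.1 (le_refl |p212 y|)
  have rpf := abs_le.1 (le_refl |pf y|)
  have v22 : p22 y = dt (y 1 - y 0) (y 3 - y 0) (y 5 - y 0) (y 6 - y 0) +
      dt (y 1 - y 0) (y 3 - y 0) (y 4 - y 0) (y 5 - y 0) -
      dt (y 1 - y 0) (y 2 - y 0) (y 5 - y 0) (y 6 - y 0) -
      dt (y 1 - y 0) (y 2 - y 0) (y 4 - y 0) (y 5 - y 0) -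
      dt (y 1 - y 0) (y 2 - y 0) (y 3 - y 0) (y 4 - y 0) := by
    unfold p22
    rw [s1 3 2]
    exact i22 _ _ _ _ _ _
  have v212 : p212 y = dt (y 1 - y 0) (y 2 - y 0) (y 3 - y 0) (y 4 - y 0) -
      dt (y 1 - y 0) (y 3 - y 0) (y 4 - y 0) (y 5 - y 0) +
      dt (y 1 - y 0) (y 4 - y 0) (y 5 - y 0) (y 6 - y 0) -
      dt (y 1 - y 0) (y 3 - y 0) (y 5 - y 0) (y 6 - y 0) := by
    unfold p212
    rw [s1 4 3]
    exact i212 _ _ _ _ _ _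
  rw [v22] at r22
  rw [v212] at r212
  unfold p31 at r31
  unfold pf at rpf
  rw [sumT, e21, e31, e41, e51, e61, e32, e42, e52, e62, e43, e53, e63, e54, e64, e65]
  have n1 : ¬ ((1 : ℝ) = -1) := by norm_num
  have n2 : ¬ ((-1 : ℝ) = 1) := by norm_num
  rcases vals s hs with ⟨k1, k2, k3, k4, k5, k6⟩ | ⟨k1, k2, k3, k4, k5, k6⟩ | ⟨k1, k2, k3, k4, k5, k6⟩ | ⟨k1, k2, k3, k4, k5, k6⟩ | ⟨k1, k2, k3, k4, k5, k6⟩ | ⟨k1, k2, k3, k4, k5, k6⟩ | ⟨k1, k2, k3, k4, k5, k6⟩ | ⟨k1, k2, k3, k4, k5, k6⟩ | ⟨k1, k2, k3, k4, k5, k6⟩ | ⟨k1, k2, k3, k4, k5, k6⟩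
  · simp only [k1, k2, k3, k4, k5, k6, n1, n2, and_true, and_false, if_true, if_false]
    left
    rcases hc with rfl | rfl <;> linarith [q.1, q.2, q3.1, q3.2, q4.1, q4.2, q5.1, q5.2, q6.1, q6.2]
  · simp only [k1, k2, k3, k4, k5, k6, n1, n2, and_true, and_false, if_true, if_false]
    left
    rcases hc with rfl | rfl <;> linarith [q.1, q.2, q3.1, q3.2, q4.1, q4.2, q5.1, q5.2, q6.1, q6.2]
  · simp only [k1, k2, k3, k4, k5, k6, n1, n2, and_true, and_false, if_true, if_false]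
    left
    rcases hc with rfl | rfl <;> linarith [q.1, q.2, q3.1, q3.2, q4.1, q4.2, q5.1, q5.2, q6.1, q6.2]
  · simp only [k1, k2, k3, k4, k5, k6, n1, n2, and_true, and_false, if_true, if_false]
    left
    rcases hc with rfl | rfl <;> linarith [q.1, q.2, q3.1, q3.2, q4.1, q4.2, q5.1, q5.2, q6.1, q6.2]
  · simp only [k1, k2, k3, k4, k5, k6, n1, n2, and_true, and_false, if_true, if_false]
    left
    rcases hc with rfl | rfl <;> linarith [q.1, q.2, q3.1, q3.2, q4.1, q4.2, q5.1, q5.2, q6.1, q6.2]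
  · simp only [k1, k2, k3, k4, k5, k6, n1, n2, and_true, and_false, if_true, if_false]
    left
    rcases hc with rfl | rfl <;> linarith [q.1, q.2, q3.1, q3.2, q4.1, q4.2, q5.1, q5.2, q6.1, q6.2]
  · simp only [k1, k2, k3, k4, k5, k6, n1, n2, and_true, and_false, if_true, if_false]
    right; left
    unfold p31
    rcases hc with rfl | rfl <;> linarith [r31.1, r31.2]
  · simp only [k1, k2, k3, k4, k5, k6, n1, n2, and_true, and_false, if_true, if_false]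
    right; right; left
    rw [v22]
    rcases hc with rfl | rfl <;> linarith [r22.1, r22.2]
  · simp only [k1, k2, k3, k4, k5, k6, n1, n2, and_true, and_false, if_true, if_false]
    right; right; right; left
    rw [v212]
    rcases hc with rfl | rfl <;> linarith [r212.1, r212.2]
  · simp only [k1, k2, k3, k4, k5, k6, n1, n2, and_true, and_false, if_true, if_false]
    right; right; right; right
    unfold pf
    rcases hc with rfl | rfl <;> linarith [rpf.1, rpf.2]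

end Pool.Agent.Helper94.Vol4.PkFIN
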